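import Pool.Agent.H.MP_b9c5ac_co.A

namespace Pool.Agent.H.MP_b9c5ac_co

open Finset

theorem nbr_lt (v i : ℕ) : nbr v i < 256 := Nat.mod_lt _ (by norm_num)

theorem fA {a : ℕ} (ha : a < 190) :
    nbr a 0 ≠ nbr a 1 ∧ nbr a 0 ≠ nbr a 2 ∧ nbr a 1 ≠ nbr a 2 ∧
    lab a (nbr a 0) ^^^ lab a (nbr a 1) ^^^ lab a (nbr a 2) = 0 ∧
    ∀ b ∈ nb a, b < 190 ∧ b ≠ a ∧ a ∈ nb b ∧ lab a b = lab b a ∧ lab a b ≠ 0 ∧
      look TB (lab a b) = true := by
  have h := hA
  simp only [chkA, List.all_eq_true, List.mem_range, Bool.and_eq_true, bne_iff_ne, ne_eq,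
    beq_iff_eq, decide_eq_true_eq, List.contains_iff_mem] at h
  obtain ⟨⟨⟨⟨h1, h2⟩, h3⟩, h4⟩, h5⟩ := h a ha
  refine ⟨h1, h2, h3, h4, fun b hb => ?_⟩
  obtain ⟨⟨⟨⟨⟨g1, g2⟩, g3⟩, g4⟩, g5⟩, g6⟩ := h5 b hb
  exact ⟨g1, g2, g3, g4, g5, g6⟩

def G : SimpleGraph (Fin 190) where
  Adj u v := v.val ∈ nb u.val
  symm := ⟨fun u v h => ((fA u.2).2.2.2.2 _ h).2.2.1⟩
  loopless := ⟨fun u h => ((fA u.2).2.2.2.2 _ h).2.1 rfl⟩

theorem adj_iff {u v : Fin 190} : G.Adj u v ↔ v.val ∈ nb u.val := Iff.rfl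

def nf (u : Fin 190) (i : Fin 3) : Fin 190 :=
  ⟨nbr u.val i.val, ((fA u.2).2.2.2.2 _ (by fin_cases i <;> simp [nb])).1⟩

theorem adj_nf (u : Fin 190) (i : Fin 3) : G.Adj u (nf u i) := by
  rw [adj_iff]; fin_cases i <;> simp [nb, nf]

theorem adj_cases {u v : Fin 190} : G.Adj u v ↔ v = nf u 0 ∨ v = nf u 1 ∨ v = nf u 2 := by
  rw [adj_iff]; simp [nb, nf, Fin.ext_iff]

theorem n01 (u : Fin 190) : nf u 0 ≠ nf u 1 := by simp [nf, Fin.ext_iff, (fA u.2).1]
theorem n02 (u : Fin 190) : nf u 0 ≠ nf u 2 := by simp [nf, Fin.ext_iff, (fA u.2).2.1]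
theorem n12 (u : Fin 190) : nf u 1 ≠ nf u 2 := by simp [nf, Fin.ext_iff, (fA u.2).2.2.1]

theorem nset (u : Fin 190) : G.neighborSet u = {nf u 0, nf u 1, nf u 2} := by
  ext v; simp [adj_cases]

theorem cubic (u : Fin 190) : (G.neighborSet u).ncard = 3 := by
  rw [nset, Set.ncard_eq_three]
  exact ⟨_, _, _, n01 u, n02 u, n12 u, rfl⟩

theorem fB {a b c : Fin 190} (h1 : G.Adj a b) (h2 : G.Adj b c) (hca : c ≠ a) :
    ¬ G.Adj c a ∧ ∀ d, G.Adj c d → d ≠ b → ¬ G.Adj d a ∧ ∀ e, G.Adj d e → e ≠ c → ¬ G.Adj e a := by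
  have h := hB
  simp only [chkB, List.all_eq_true, List.mem_range, Bool.and_eq_true, Bool.or_eq_true,
    beq_iff_eq, Bool.not_eq_true', List.contains_eq_mem, decide_eq_false_iff_not] at h
  rcases h a a.2 b h1 c h2 with g | ⟨g1, g2⟩
  · exact absurd (Fin.ext g) hca
  refine ⟨g1, fun d hd hdb => ?_⟩
  rcases g2 d hd with g | ⟨g3, g4⟩
  · exact absurd (Fin.ext g) hdb
  refine ⟨g3, fun e he hec => ?_⟩
  rcases g4 e he with g | g
  · exact absurd (Fin.ext g) hec
  exact g

theorem girth6 : 6 ≤ G.egirth := by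
  rw [SimpleGraph.le_egirth]
  intro a w hw
  have h3 := hw.three_le_length
  by_contra hlt
  have hl : w.length < 6 := by
    have : ((w.length : ℕ) : ℕ∞) < ((6 : ℕ) : ℕ∞) := by simpa using not_le.mp hlt
    exact_mod_cast this
  have hn := hw.support_nodup
  match w, h3, hl, hn with
  | .nil, h3, _, _ => simp at h3
  | .cons _ .nil, h3, _, _ => simp at h3
  | .cons _ (.cons _ .nil), h3, _, _ => simp at h3
  | .cons h1 (.cons h2 (.cons h3 .nil)), _, _, hn =>
    simp at hn
    exact (fB h1 h2 (by tauto)).1 h3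
  | .cons h1 (.cons h2 (.cons h3 (.cons h4 .nil))), _, _, hn =>
    simp at hn
    exact ((fB h1 h2 (by tauto)).2 _ h3 (by tauto)).1 h4
  | .cons h1 (.cons h2 (.cons h3 (.cons h4 (.cons h5 .nil)))), _, _, hn =>
    simp at hn
    exact ((fB h1 h2 (by tauto)).2 _ h3 (by tauto)).2 _ h4 (by tauto) h5
  | .cons h1 (.cons h2 (.cons h3 (.cons h4 (.cons h5 (.cons h6 w))))), _, hl, _ =>
    simp at hl; omega

/-! colourings -/

theorem xs_append (x : ℕ → ℕ) (l m : List ℕ) : xs x (l ++ m) = xs x l ^^^ xs x m := by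
  induction l with
  | nil => simp [xs]
  | cons j l ih => simp [xs, ih, Nat.xor_assoc]

theorem xs_erase (x : ℕ → ℕ) (j : ℕ) (r : List ℕ) (h : j ∈ r) :
    xs x (r.erase j) = x j ^^^ xs x r := by
  induction r with
  | nil => simp at h
  | cons k r ih =>
    by_cases hk : k = j
    · subst hk; simp [xs, ← Nat.xor_assoc]
    · have hj : j ∈ r := by
        rcases List.mem_cons.mp h with h | h
        · exact absurd h.symm hk
        · exact h
      rw [List.erase_cons_tail (by simpa using hk)]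
      simp only [xs, ih hj]
      rw [← Nat.xor_assoc, ← Nat.xor_assoc, Nat.xor_comm (x k)]

theorem xs_red (x : ℕ → ℕ) (l : List ℕ) : xs x (red' l) = xs x l := by
  induction l with
  | nil => rfl
  | cons j l ih =>
    have : red' (j :: l) = if j ∈ red' l then (red' l).erase j else j :: red' l := rfl
    rw [this]
    split_ifs with h
    · rw [xs_erase x j _ h, ih]; rfl
    · simp [xs, ih]

theorem xs_flat (x : ℕ → ℕ) (hx : ∀ a < 190, xs x (star a) = 0) (X : List ℕ)
    (hX : ∀ a ∈ X, a < 190) : xs x (X.flatMap star) = 0 := by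
  induction X with
  | nil => rfl
  | cons a X ih =>
    rw [List.flatMap_cons, xs_append, hx a (hX a (by simp)),
      ih fun b hb => hX b (by simp [hb])]
    rfl

theorem xs_congr (s x : ℕ → ℕ) (l : List ℕ) (h : ∀ j ∈ l, s j = x j) : xs s l = xs x l := by
  induction l with
  | nil => rfl
  | cons j l ih =>
    simp only [xs]
    rw [h j (by simp), ih fun k hk => h k (by simp [hk])]

theorem ref_sound (x : ℕ → ℕ) (hx : ∀ j, x j ∈ [1, 2, 3])
    (S : List (ℕ × List (List ℕ × Bool))) :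
    ∀ s : ℕ → ℕ, (∀ j, s j = 0 ∨ s j = x j) →
      (∀ p ∈ S, ∀ c ∈ p.2, (xs x c.1 == 0) = c.2) → ref S s = true → False := by
  induction S with
  | nil => intro s _ _ h; simp [ref] at h
  | cons p r ih =>
    obtain ⟨i, cs⟩ := p
    intro s hs hc h
    rw [ref, List.all_eq_true] at h
    have h1 := h (x i) (hx i)
    have hs' : ∀ j, (fun j => if j = i then x i else s j) j = 0 ∨
        (fun j => if j = i then x i else s j) j = x j := by
      intro j
      by_cases hj : j = i
      · subst hj; simp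
      · simpa [hj] using hs j
    rw [Bool.or_eq_true] at h1
    rcases h1 with h1 | h1
    · rw [List.any_eq_true] at h1
      obtain ⟨c, hc1, hv⟩ := h1
      have h2 := hc (i, cs) (by simp) c hc1
      rw [viol, Bool.and_eq_true, List.all_eq_true] at hv
      have h3 : xs (fun j => if j = i then x i else s j) c.1 = xs x c.1 := by
        apply xs_congr
        intro j hj
        rcases hs' j with g | g
        · have := hv.1 j hj
          have g' : (if j = i then x i else s j) = 0 := g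
          rw [g'] at this; simp at this
        · exact g
      have h4 := hv.2
      rw [h3, h2] at h4
      simp at h4
    · exact ih _ hs' (fun p hp => hc p (by simp [hp])) h1

theorem refute (x : ℕ → ℕ) (hx : ∀ j, x j ∈ [1, 2, 3]) (hv : ∀ a < 190, xs x (star a) = 0)
    (S : List (ℕ × List (List ℕ × Bool))) (ex : List (List ℕ × Bool))
    (hex : ∀ c ∈ ex, (xs x c.1 == 0) = c.2) (ho : okS S ex = true)
    (hr : ref S (fun _ => 0) = true) : False := by
  refine ref_sound x hx S _ (fun _ => Or.inl rfl) ?_ hr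
  intro p hp c hc
  simp only [okS, List.all_eq_true, Bool.or_eq_true, Bool.and_eq_true, List.contains_iff_mem,
    List.mem_map] at ho
  rcases ho p hp c hc with h | ⟨h1, q, hq, h2⟩
  · exact hex c h
  · have h := hS
    simp only [chkS, List.all_eq_true, Bool.and_eq_true, decide_eq_true_eq, beq_iff_eq] at h
    obtain ⟨g1, g2⟩ := h q hq
    rw [h1, ← h2, ← g2, xs_red, xs_flat x hv _ g1]
    rfl

theorem no_x (x : ℕ → ℕ) (hx : ∀ j, x j ∈ [1, 2, 3]) (hv : ∀ a < 190, xs x (star a) = 0) :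
    False := by
  have h1 : (xs x E1 == 0) = false := by
    by_contra h
    exact refute x hx hv S1 _ (by simpa using h) o1 r1
  have h2 : (xs x E2 == 0) = false := by
    by_contra h
    exact refute x hx hv S2 _ (by simpa using h) o2 r2
  refine refute x hx hv S3 _ ?_ o3 r3
  intro c hc
  simp only [List.mem_cons, List.not_mem_nil, or_false] at hc
  rcases hc with rfl | rfl
  · exact h1
  · exact h2

theorem not_col : ¬ ∃ c : Sym2 (Fin 190) → Fin 3,
    ∀ u v w, G.Adj u v → G.Adj u w → v ≠ w → c s(u, v) ≠ c s(u, w) := by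
  rintro ⟨c, hc⟩
  let x : ℕ → ℕ := fun j =>
    if h : j / 256 < 190 ∧ j % 256 < 190 then (c s(⟨j / 256, h.1⟩, ⟨j % 256, h.2⟩)).val + 1 else 1
  have hk : ∀ a b : Fin 190, x (key a.val b.val) = (c s(a, b)).val + 1 := by
    intro a b
    have ha := a.2
    have hb := b.2
    unfold key
    split_ifs with h
    · have e1 : (256 * a.val + b.val) / 256 = a.val := by omega
      have e2 : (256 * a.val + b.val) % 256 = b.val := by omega
      simp only [x, e1, e2, ha, hb, and_self, dite_true]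
    · have e1 : (256 * b.val + a.val) / 256 = b.val := by omega
      have e2 : (256 * b.val + a.val) % 256 = a.val := by omega
      simp only [x, e1, e2, ha, hb, and_self, dite_true]
      rw [Sym2.eq_swap]
  refine no_x x ?_ ?_
  · intro j
    simp only [x]
    split_ifs with h
    · generalize c _ = t
      fin_cases t <;> simp
    · simp
  · intro a ha
    let u : Fin 190 := ⟨a, ha⟩
    have e0 := hk u (nf u 0)
    have e1 := hk u (nf u 1)
    have e2 := hk u (nf u 2)
    have d01 := hc u _ _ (adj_nf u 0) (adj_nf u 1) (n01 u)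
    have d02 := hc u _ _ (adj_nf u 0) (adj_nf u 2) (n02 u)
    have d12 := hc u _ _ (adj_nf u 1) (adj_nf u 2) (n12 u)
    have : xs x (star a) = x (key u.val (nf u 0).val) ^^^ (x (key u.val (nf u 1).val) ^^^
      (x (key u.val (nf u 2).val) ^^^ 0)) := rfl
    rw [this, e0, e1, e2]
    revert d01 d02 d12
    generalize c s(u, nf u 0) = p
    generalize c s(u, nf u 1) = q
    generalize c s(u, nf u 2) = r
    revert p q r
    decide

end Pool.Agent.H.MP_b9c5ac_co
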