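import Pool.Agent.H.MP_b9c5ac_co.B

set_option maxRecDepth 20000
set_option linter.constructorNameAsVariable false

namespace Pool.Agent.H.MP_b9c5ac_co

open Finset

attribute [local irreducible] TB look lab nbr EL nb

abbrev V := Fin 190

instance : DecidableRel G.Adj := fun u v => inferInstanceAs (Decidable (v.val ∈ nb u.val))

def L (p : V × V) : ℕ := lab p.1.val p.2.val

theorem L_swap {p : V × V} (h : G.Adj p.1 p.2) : L p.swap = L p :=
  (((fA p.1.2).2.2.2.2 _ h).2.2.2.1).symm

theorem L_ne {p : V × V} (h : G.Adj p.1 p.2) : L p ≠ 0 :=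
  ((fA p.1.2).2.2.2.2 _ h).2.2.2.2.1

theorem L_look {p : V × V} (h : G.Adj p.1 p.2) : look TB (L p) = true :=
  ((fA p.1.2).2.2.2.2 _ h).2.2.2.2.2

theorem mem_EL {a b : V} (h : G.Adj a b) (hab : a.val < b.val) :
    (a.val, b.val, L (a, b)) ∈ EL := by
  simp only [EL, List.mem_flatMap, List.mem_range, List.mem_map, List.mem_filter,
    decide_eq_true_eq]
  exact ⟨a.val, a.2, b.val, ⟨h, hab⟩, rfl⟩

theorem fC0 {a b c d : V} (h : G.Adj a b) (hab : a.val < b.val) (h' : G.Adj c d)
    (hcd : c.val < d.val) :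
    (L (a, b) = L (c, d) → a = c ∧ b = d) ∧
    (look TB (L (a, b) ^^^ L (c, d)) = true → a = c ∨ a = d ∨ b = c ∨ b = d) := by
  have k := hC
  simp only [chkC, List.all_eq_true, Bool.and_eq_true, Bool.or_eq_true, bne_iff_ne, ne_eq,
    beq_iff_eq, Bool.not_eq_true'] at k
  obtain ⟨k1, k2⟩ := k _ (mem_EL h hab) _ (mem_EL h' hcd)
  simp only [Fin.ext_iff]
  constructor
  · intro e
    rcases k1 with k1 | k1
    · exact absurd e k1
    · exact k1
  · intro e
    rw [e] at k2
    simp only [Bool.true_eq_false, false_or] at k2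
    tauto

theorem fC {a b c d : V} (h : G.Adj a b) (h' : G.Adj c d) :
    (L (a, b) = L (c, d) → (a = c ∧ b = d) ∨ (a = d ∧ b = c)) ∧
    (look TB (L (a, b) ^^^ L (c, d)) = true → a = c ∨ a = d ∨ b = c ∨ b = d) := by
  have e1 : L (b, a) = L (a, b) := L_swap (p := (a, b)) h
  have e2 : L (d, c) = L (c, d) := L_swap (p := (c, d)) h'
  have n1 : a.val ≠ b.val := fun e => h.ne (Fin.ext e)
  have n2 : c.val ≠ d.val := fun e => h'.ne (Fin.ext e)
  rcases lt_or_gt_of_ne n1 with l1 | l1 <;> rcases lt_or_gt_of_ne n2 with l2 | l2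
  · have := fC0 h l1 h' l2
    tauto
  · have := fC0 h l1 h'.symm l2
    rw [e2] at this
    tauto
  · have := fC0 h.symm l1 h' l2
    rw [e1] at this
    tauto
  · have := fC0 h.symm l1 h'.symm l2
    rw [e1, e2] at this
    tauto

def bit (t n : ℕ) : ZMod 2 := if n.testBit t then 1 else 0

theorem bit_xor (t m n : ℕ) : bit t (m ^^^ n) = bit t m + bit t n := by
  unfold bit
  rw [Nat.testBit_xor]
  cases m.testBit t <;> cases n.testBit t <;> simp
  rfl

theorem bit_zero {n : ℕ} (h : ∀ t, bit t n = 0) : n = 0 := by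
  apply Nat.eq_of_testBit_eq
  intro t
  have := h t
  unfold bit at this
  cases e : n.testBit t
  · simp
  · rw [e] at this; simp at this

theorem vsum (t : ℕ) (a : V) : ∑ b ∈ univ.filter (fun b => G.Adj a b), bit t (L (a, b)) = 0 := by
  have : univ.filter (fun b => G.Adj a b) = {nf a 0, nf a 1, nf a 2} := by
    ext v; simp [adj_cases]
  rw [this, sum_insert (by simp [n01 a, n02 a]), sum_insert (by simp [n12 a]), sum_singleton,
    ← bit_xor, ← bit_xor, ← Nat.xor_assoc]
  have h : L (a, nf a 0) ^^^ L (a, nf a 1) ^^^ L (a, nf a 2) = 0 := (fA a.2).2.2.2.1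
  rw [h]; simp [bit]

open Classical in
noncomputable def cut (X : Set V) : Finset (V × V) :=
  univ.filter fun p => p.1 ∈ X ∧ G.Adj p.1 p.2 ∧ p.2 ∉ X

theorem mem_cut {X : Set V} {p : V × V} : p ∈ cut X ↔ p.1 ∈ X ∧ G.Adj p.1 p.2 ∧ p.2 ∉ X := by
  simp [cut]

attribute [irreducible] cut

theorem csum (t : ℕ) (X : Set V) : ∑ p ∈ cut X, bit t (L p) = 0 := by
  classical
  have h1 : ∑ p ∈ (univ : Finset (V × V)).filter (fun p => p.1 ∈ X ∧ G.Adj p.1 p.2),
      bit t (L p) = 0 := by
    rw [sum_filter, Fintype.sum_prod_type]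
    apply sum_eq_zero
    intro a _
    by_cases ha : a ∈ X
    · simp only [ha, true_and]
      rw [← sum_filter]
      exact vsum t a
    · simp [ha]
  have h2 : ∑ p ∈ (univ : Finset (V × V)).filter (fun p => (p.1 ∈ X ∧ G.Adj p.1 p.2) ∧ p.2 ∈ X),
      bit t (L p) = 0 := by
    apply sum_involution (fun p _ => p.swap)
    · intro p hp
      simp only [mem_filter] at hp
      rw [L_swap hp.2.1.2]
      exact CharTwo.add_self_eq_zero _
    · intro p hp _ e
      simp only [mem_filter] at hp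
      exact hp.2.1.2.ne (congrArg Prod.snd e)
    · intro p _
      rfl
    · intro p hp
      simp only [mem_filter, mem_univ, true_and] at hp ⊢
      exact ⟨⟨hp.2, hp.1.2.symm⟩, hp.1.1⟩
  rw [← sum_filter_add_sum_filter_not _ (fun p => p.2 ∈ X), filter_filter, filter_filter, h2,
    zero_add] at h1
  rw [← h1]
  apply sum_congr _ fun _ _ => rfl
  ext p
  simp [mem_cut, and_assoc]

theorem all_nb {z a b c : V} (ha : G.Adj z a) (hb : G.Adj z b) (hc : G.Adj z c) (hab : a ≠ b)
    (hac : a ≠ c) (hbc : b ≠ c) {w : V} (hw : G.Adj z w) : w = a ∨ w = b ∨ w = c := by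
  rw [adj_cases] at ha hb hc hw
  rcases ha with rfl | rfl | rfl <;> rcases hb with rfl | rfl | rfl <;>
    rcases hc with rfl | rfl | rfl <;> tauto

theorem small_cut (X : Set V) (h0 : (cut X).Nonempty) (h3 : (cut X).card ≤ 3) :
    ∃ z, (z ∈ X ∧ ∀ w, G.Adj z w → w ∉ X) ∨ (z ∉ X ∧ ∀ w, G.Adj z w → w ∈ X) := by
  have hpos := h0.card_pos
  have hs := fun t => csum t X
  have hm := @mem_cut X
  have : (cut X).card = 1 ∨ (cut X).card = 2 ∨ (cut X).card = 3 := by omega
  rcases this with h | h | h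
  · obtain ⟨p, e⟩ := card_eq_one.mp h
    rw [e] at hs hm
    simp only [sum_singleton] at hs
    exact absurd (bit_zero hs) (L_ne (hm.mp (by simp)).2.1)
  · obtain ⟨⟨a, b⟩, ⟨c, d⟩, hne, e⟩ := card_eq_two.mp h
    rw [e] at hs hm
    have hp := (@hm (a, b)).mp (by simp)
    have hq := (@hm (c, d)).mp (by simp)
    simp only [sum_pair hne, ← bit_xor] at hs
    have e1 := Nat.eq_of_xor_eq_zero (bit_zero hs)
    rcases (fC hp.2.1 hq.2.1).1 e1 with ⟨rfl, rfl⟩ | ⟨rfl, rfl⟩
    · exact absurd rfl hne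
    · exact absurd hp.1 hq.2.2
  · obtain ⟨⟨a, b⟩, ⟨c, d⟩, ⟨e, f⟩, n1, n2, n3, ee⟩ := card_eq_three.mp h
    rw [ee] at hs hm
    have hp := (@hm (a, b)).mp (by simp)
    have hq := (@hm (c, d)).mp (by simp)
    have hr := (@hm (e, f)).mp (by simp)
    have z0 : L (a, b) ^^^ (L (c, d) ^^^ L (e, f)) = 0 := by
      apply bit_zero
      intro t
      have := hs t
      rwa [sum_insert (by simp [n1, n2]), sum_pair n3, ← bit_xor, ← bit_xor] at this
    have z1 : L (c, d) ^^^ L (e, f) = L (a, b) := (Nat.eq_of_xor_eq_zero z0).symm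
    have z2 : L (a, b) ^^^ L (e, f) = L (c, d) := by
      rw [← z1, Nat.xor_assoc, Nat.xor_self, Nat.xor_zero]
    have z3 : L (a, b) ^^^ L (c, d) = L (e, f) := by
      rw [← z1, Nat.xor_comm (L (c, d)), Nat.xor_assoc, Nat.xor_self, Nat.xor_zero]
    have s1 := (fC hq.2.1 hr.2.1).2 (by rw [z1]; exact L_look (p := (a, b)) hp.2.1)
    have s2 := (fC hp.2.1 hr.2.1).2 (by rw [z2]; exact L_look (p := (c, d)) hq.2.1)
    have s3 := (fC hp.2.1 hq.2.1).2 (by rw [z3]; exact L_look (p := (e, f)) hr.2.1)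
    simp only [ne_eq, Prod.mk.injEq, not_and] at n1 n2 n3
    obtain ⟨p1, p2, p3⟩ := hp
    obtain ⟨q1, q2, q3⟩ := hq
    obtain ⟨r1, r2, r3⟩ := hr
    simp only at p1 p2 p3 q1 q2 q3 r1 r2 r3
    have x1 : a ≠ d := fun k => q3 (k ▸ p1)
    have x2 : b ≠ c := fun k => p3 (k ▸ q1)
    have x3 : a ≠ f := fun k => r3 (k ▸ p1)
    have x4 : b ≠ e := fun k => p3 (k ▸ r1)
    have x5 : c ≠ f := fun k => r3 (k ▸ q1)
    have x6 : d ≠ e := fun k => q3 (k ▸ r1)
    have key : (a = c ∧ a = e) ∨ (b = d ∧ b = f) := by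
      simp only [Fin.ext_iff] at s1 s2 s3 n1 n2 n3 x1 x2 x3 x4 x5 x6 ⊢
      simp only [ne_eq, Fin.ext_iff] at x1 x2 x3 x4 x5 x6
      omega
    rcases key with ⟨rfl, rfl⟩ | ⟨rfl, rfl⟩
    · refine ⟨a, Or.inl ⟨p1, fun w hw => ?_⟩⟩
      rcases all_nb p2 q2 r2 (n1 rfl) (n2 rfl) (n3 rfl) hw with rfl | rfl | rfl <;> assumption
    · refine ⟨b, Or.inr ⟨p3, fun w hw => ?_⟩⟩
      rcases all_nb p2.symm q2.symm r2.symm (fun k => n1 k rfl) (fun k => n2 k rfl)
        (fun k => n3 k rfl) hw with rfl | rfl | rfl <;> assumption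

/-! the tree -/

theorem fT (v : V) :
    (v.val ≠ 0 → par v.val ∈ nb v.val ∧ dep (par v.val) + 1 = dep v.val ∧ par v.val < v.val) ∧
    (v.val < 94 → ∀ w ∈ nb v.val, (v.val ≠ 0 ∧ par v.val = w) ∨ (w ≠ 0 ∧ par w = v.val)) ∧
    (94 ≤ v.val → dep v.val = 6) := by
  have h := hT
  simp only [chkT, List.all_eq_true, List.mem_range, Bool.and_eq_true, Bool.or_eq_true,
    bne_iff_ne, ne_eq, beq_iff_eq, decide_eq_true_eq, List.contains_iff_mem] at h
  obtain ⟨⟨h1, h2⟩, h3⟩ := h v.val v.2
  refine ⟨fun k => ?_, fun k => ?_, fun k => ?_⟩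
  · rcases h1 with h1 | h1
    · exact absurd h1 k
    · exact ⟨h1.1.1, h1.1.2, h1.2⟩
  · rcases h2 with h2 | h2
    · omega
    · exact h2
  · rcases h3 with h3 | h3
    · omega
    · exact h3

def T : SimpleGraph V where
  Adj u v := (u.val ≠ 0 ∧ par u.val = v.val) ∨ (v.val ≠ 0 ∧ par v.val = u.val)
  symm := ⟨fun u v h => h.symm⟩
  loopless := ⟨fun u h => by
    have := (fT u).1
    rcases h with h | h <;> · have := (this h.1).2.2; omega⟩

theorem tadj {u v : V} :
    T.Adj u v ↔ (u.val ≠ 0 ∧ par u.val = v.val) ∨ (v.val ≠ 0 ∧ par v.val = u.val) := Iff.rfl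

theorem T_le : T ≤ G := by
  intro u v h
  rcases h with h | h
  · rw [adj_iff, ← h.2]; exact ((fT u).1 h.1).1
  · apply SimpleGraph.Adj.symm
    rw [adj_iff, ← h.2]; exact ((fT v).1 h.1).1

def pv (v : V) : V := ⟨par v.val, by have := v.2; unfold par; split_ifs <;> omega⟩

theorem T_hi {v : V} (h : v.val < 94) : T.neighborSet v = G.neighborSet v := by
  ext w
  exact ⟨fun k => T_le k, fun k => (fT v).2.1 h w.val k⟩

theorem T_lo {v : V} (h : 94 ≤ v.val) : T.neighborSet v = {pv v} := by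
  ext w
  simp only [SimpleGraph.mem_neighborSet, tadj, Set.mem_singleton_iff, pv, Fin.ext_iff]
  have := w.2
  constructor
  · rintro (k | k)
    · exact k.2.symm
    · exfalso
      have k2 := k.2
      unfold par at k2
      split_ifs at k2 <;> omega
  · intro k
    left
    exact ⟨by omega, k.symm⟩

theorem T_walk : ∀ n, ∀ v : V, v.val = n → ∃ w : T.Walk (0 : V) v, w.length = dep v.val := by
  intro n
  induction n using Nat.strong_induction_on with
  | _ n ih =>
    intro v hv
    by_cases h0 : v.val = 0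
    · have : v = 0 := Fin.ext h0
      subst this
      exact ⟨.nil, rfl⟩
    · obtain ⟨_, h2, h3⟩ := (fT v).1 h0
      obtain ⟨w, hw⟩ := ih (par v.val) (hv ▸ h3) (pv v) rfl
      have ha : T.Adj (pv v) v := Or.inr ⟨h0, rfl⟩
      refine ⟨w.concat ha, ?_⟩
      rw [SimpleGraph.Walk.length_concat, hw]
      exact h2

theorem dep_le {u v : V} (w : T.Walk u v) : dep v.val ≤ dep u.val + w.length := by
  induction w with
  | nil => simp
  | @cons a b c h w ih =>
    have : dep b.val ≤ dep a.val + 1 := by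
      rcases h with h | h
      · have := ((fT a).1 h.1).2.1
        rw [h.2] at this; omega
      · have := ((fT b).1 h.1).2.1
        rw [h.2] at this; omega
    rw [SimpleGraph.Walk.length_cons]; omega

theorem T_conn : T.Connected := by
  have h : ∀ v : V, T.Reachable 0 v := fun v => by
    obtain ⟨w, _⟩ := T_walk _ v rfl
    exact ⟨w⟩
  exact ⟨fun u v => (h u).symm.trans (h v)⟩

theorem T_dist (v : V) : T.dist 0 v = dep v.val := by
  apply le_antisymm
  · obtain ⟨w, hw⟩ := T_walk _ v rfl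
    rw [← hw]; exact SimpleGraph.dist_le w
  · obtain ⟨w, hw⟩ := (T_conn.preconnected 0 v).exists_walk_length_eq_dist
    have := dep_le w
    rw [hw] at this
    simpa [dep] using this

theorem T_deg (v : V) : (T.neighborSet v).ncard = if v.val < 94 then 3 else 1 := by
  split_ifs with h
  · rw [T_hi h, cubic]
  · rw [T_lo (by omega), Set.ncard_singleton]

theorem T_tree : T.IsTree := by
  classical
  rw [SimpleGraph.isTree_iff_connected_and_card]
  refine ⟨T_conn, ?_⟩
  have h := T.sum_degrees_eq_twice_card_edges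
  have h2 : ∀ v : V, T.degree v = if v.val < 94 then 3 else 1 := by
    intro v
    rw [← T_deg, ← SimpleGraph.card_neighborSet_eq_degree, Set.ncard_eq_toFinset_card',
      Set.toFinset_card]
  simp only [h2] at h
  have h3 : ∑ v : V, (if v.val < 94 then 3 else 1) = 378 := by decide +kernel
  rw [h3] at h
  rw [Nat.card_eq_fintype_card, ← SimpleGraph.edgeFinset_card]
  simp only [Nat.card_eq_fintype_card, Fintype.card_fin]
  omega

/-! cyclic connectivity -/

theorem side (F : Finset (Sym2 V)) (hF : F.card < 4) (u v y : V)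
    (hy : (G.deleteEdges F).Adj u y) (huv : ¬ (G.deleteEdges F).Reachable u v) :
    ∃ z, ∀ w, G.Adj z w → (G.deleteEdges F).Reachable u w ∧ s(z, w) ∈ F := by
  classical
  let X : Set V := {w | (G.deleteEdges F).Reachable u w}
  have hin : ∀ a b, a ∈ X → G.Adj a b → b ∉ X → s(a, b) ∈ F := by
    intro a b ha hab hb
    by_contra k
    apply hb
    exact SimpleGraph.Reachable.trans ha (SimpleGraph.Adj.reachable (by simp [hab, k]))
  have h3 : (cut X).card ≤ 3 := by
    have : (cut X).card ≤ F.card := by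
      apply card_le_card_of_injOn (fun p => s(p.1, p.2))
      · intro p hp
        have := mem_cut.mp hp
        exact hin _ _ this.1 this.2.1 this.2.2
      · intro p hp q hq e
        have hp := mem_cut.mp hp
        have hq := mem_cut.mp hq
        simp only [Sym2.eq_iff] at e
        rcases e with e | e
        · exact Prod.ext e.1 e.2
        · exact absurd (e.1 ▸ hp.1) hq.2.2
    omega
  have h0 : (cut X).Nonempty := by
    obtain ⟨w⟩ := (T_conn.mono T_le).preconnected u v
    obtain ⟨d, _, d1, d2⟩ := w.exists_boundary_dart X (SimpleGraph.Reachable.refl u) huv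
    exact ⟨d.toProd, mem_cut.mpr ⟨d1, d.adj, d2⟩⟩
  obtain ⟨z, ⟨hz, hw⟩ | ⟨hz, hw⟩⟩ := small_cut X h0 h3
  · exfalso
    have hz' : (G.deleteEdges F).Reachable u z := hz
    obtain ⟨w⟩ := hz'.symm
    cases w with
    | nil => exact hw y (SimpleGraph.deleteEdges_le _ hy) hy.reachable
    | cons h w => exact hw _ (SimpleGraph.deleteEdges_le _ h) w.reachable.symm
  · refine ⟨z, fun w k => ⟨hw w k, ?_⟩⟩
    rw [Sym2.eq_swap]
    exact hin _ _ (hw w k) k.symm hz

theorem cyc4 (F : Finset (Sym2 V)) (hF : F.card < 4) (u v y y' : V)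
    (hy : (G.deleteEdges F).Adj u y) (hy' : (G.deleteEdges F).Adj v y') :
    (G.deleteEdges F).Reachable u v := by
  classical
  by_contra huv
  obtain ⟨z, hz⟩ := side F hF u v y hy huv
  obtain ⟨z', hz'⟩ := side F hF v u y' hy' fun k => huv k.symm
  have hsub : ({s(z, nf z 0), s(z, nf z 1), s(z, nf z 2)} : Finset (Sym2 V)) ⊆ F := by
    intro e he
    simp only [mem_insert, mem_singleton] at he
    rcases he with rfl | rfl | rfl <;> exact (hz _ (adj_nf z _)).2
  have hc : ({s(z, nf z 0), s(z, nf z 1), s(z, nf z 2)} : Finset (Sym2 V)).card = 3 := by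
    rw [card_eq_three]
    refine ⟨_, _, _, ?_, ?_, ?_, rfl⟩ <;> intro e <;> rw [Sym2.congr_right] at e
    · exact n01 z e
    · exact n02 z e
    · exact n12 z e
  have he := eq_of_subset_of_card_le hsub (by omega)
  have hall : ∀ e ∈ F, z ∈ e := by
    intro e k
    rw [← he] at k
    simp only [mem_insert, mem_singleton] at k
    rcases k with rfl | rfl | rfl <;> simp
  have zz : z = z' := by
    by_contra k
    have a0 := hall _ (hz' _ (adj_nf z' 0)).2
    have a1 := hall _ (hz' _ (adj_nf z' 1)).2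
    simp only [Sym2.mem_iff, k, false_or] at a0 a1
    exact n01 z' (a0.symm.trans a1)
  subst zz
  exact huv ((hz _ (adj_nf z 0)).1.trans (hz' _ (adj_nf z 0)).1.symm)

end Pool.Agent.H.MP_b9c5ac_co
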